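import Pool.Agent.H45.MG.Awc

/-!
# The alternating sums of Knörr and Robinson: reduction to quotients of the modular group

`O` is a valuation subring of `ℂ` whose maximal ideal contains `p`; blocks, defect groups and block
induction are defined by central characters modulo the maximal ideal of `O`
(`Pool.Agent.H254R3.IN`, `Pool.Agent.Q90.WR.IndS`).

Let `B` be a `p`-block of a finite group `G`. (a) `G` is embedded in an alternating group `H` which is
generated by a 3-cycle `h₁` and an `m`-cycle `h₂` whose product has order `m + 2`, such that the image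
fixes three points with suitable properties; here `m + 2` is a prime which is `1` modulo `42`.
(b) For a large prime `q`, the group `H` acts on the functions from the disjoint union of `H/G` and seven
copies of `H` to the field with `q` elements, and `h₁`, `h₂` are lifted to elements `x`, `y` of the
semidirect product with `x³ = 1`, `(xy)^(m+2) = 1` which generate an extension `K` of a group `V` of
functions by `H`. The linear characters `λ₀, …, λ₇` of `V` which belong to the eight base points, with
exponents `1, …, 8`, are not conjugate in `K`; the stabiliser of `λ₇` is an extension of `V` by `G`, and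
the stabiliser of the other `λⱼ` is `V`. (c) The wreath product of `K` with the permutation group of the
projective line over the field with seven elements contains elements `a`, `b` with `a² = b³ = 1` which
generate a group `W` that contains the base group `K⁸` and satisfies `W/K⁸ = PSL₂(7)`; the order of `ab`
is prime to `6`, and `W` is perfect. (d) The stabiliser in `W` of the character `λ₀ ⊗ ⋯ ⊗ λ₇` of `V⁸` is an
extension of `V⁸` by `G`, and the Fong–Reynolds correspondence for this character gives a block `B'` of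
`W` for which the alternating sums are those of `B`.
-/

set_option autoImplicit false

noncomputable section

namespace Pool.Agent.Results.MP_6a3f1a_al.ModularGroup

open Pool.Agent.Y63.KR (alternatingSum)
open Pool.Agent.Q90.WR (IndS AdmB)
open Pool.Agent.H254R3.IN (IsBlock IsDefectGroup)

/-- `k(B_σ)` for `G_σ = H`: the number of the irreducible characters `θ` of `H` with `bl(θ)^G = B`. -/
def k (O : ValuationSubring ℂ) {G : Type} [Group G] (B : Set (G → ℂ)) (H : Subgroup G) : ℕ :=
  Nat.card {θ : H → ℂ // θ ∈ IndS O B (Subtype.val : H → G)}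

/-- `k^d(B_σ)`: the number of those of `p`-defect `d`. -/
def kDef (p : ℕ) (O : ValuationSubring ℂ) (d : ℕ) {G : Type} [Group G] (B : Set (G → ℂ))
    (H : Subgroup G) : ℕ :=
  Nat.card {θ : H → ℂ // θ ∈ IndS O B (Subtype.val : H → G) ∧
    ∃ n : ℕ, θ 1 = (n : ℂ) ∧ n.factorization p + d = (Nat.card H).factorization p}

/-- The sum of Q1 for `O_p(G) = 1`: `∑_σ (-1)^|σ| k(B_σ)` over representatives `σ` of the `G`-classes of
chains of nontrivial `p`-subgroups of `G`, the empty chain included. -/
def S (p : ℕ) (O : ValuationSubring ℂ) {G : Type} [Group G] (B : Set (G → ℂ)) : ℤ :=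
  alternatingSum p G (fun H => (k O B H : ℤ))

/-- Dade's sum `∑_σ (-1)^|σ| k^d(B_σ)`. -/
def SDef (p : ℕ) (O : ValuationSubring ℂ) (d : ℕ) {G : Type} [Group G] (B : Set (G → ℂ)) : ℤ :=
  alternatingSum p G (fun H => (kDef p O d B H : ℤ))

/-- `W` is a finite perfect group generated by elements `a`, `b` with `a² = b³ = 1`, that is, a finite
perfect quotient of the modular group `PSL₂(ℤ)`. -/
def IsModular (W : Type) [Group W] : Prop :=
  Finite W ∧ commutator W = ⊤ ∧
    ∃ a b : W, a ^ 2 = 1 ∧ b ^ 3 = 1 ∧ Subgroup.closure {a, b} = ⊤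

theorem sum_eq {p : ℕ} {O : ValuationSubring ℂ} {G W : Type} [Group G] [Group W]
    {B' : Set (W → ℂ)} {B : Set (G → ℂ)}
    (h : ∀ Q : ℂ → ℕ → Prop, Pool.Agent.K4H11.FR.QOK p Q →
      alternatingSum p W (fun K => (Pool.Agent.K4H11.FR.cntQ O Q B' K : ℤ)) =
        alternatingSum p G (fun K => (Pool.Agent.K4H11.FR.cntQ O Q B K : ℤ))) :
    S p O B' = S p O B := by
  have h1 := h (fun _ _ => True) (fun _ _ _ _ _ _ _ _ _ _ _ => Iff.rfl)
  have e : ∀ {J : Type} [Group J] (C : Set (J → ℂ)) (K : Subgroup J),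
      Pool.Agent.K4H11.FR.cntQ O (fun _ _ => True) C K = k O C K := fun C K =>
    Nat.card_congr (Equiv.subtypeEquivRight fun θ => iff_of_eq (and_true _))
  simp only [e] at h1
  exact h1

theorem sumDef_eq {p : ℕ} [Fact p.Prime] {O : ValuationSubring ℂ} {G W : Type} [Group G]
    [Group W] {B' : Set (W → ℂ)} {B : Set (G → ℂ)}
    (h : ∀ Q : ℂ → ℕ → Prop, Pool.Agent.K4H11.FR.QOK p Q →
      alternatingSum p W (fun K => (Pool.Agent.K4H11.FR.cntQ O Q B' K : ℤ)) =
        alternatingSum p G (fun K => (Pool.Agent.K4H11.FR.cntQ O Q B K : ℤ))) (d : ℕ) :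
    SDef p O d B' = SDef p O d B := by
  refine h (fun z a => ∃ n : ℕ, z = (n : ℂ) ∧ n.factorization p + d = a.factorization p) ?_
  intro m m' a b k hm hm' ha hb hk he
  have hk0 : k ≠ 0 := by
    rintro rfl
    exact hk (dvd_zero p)
  have h1 : a.factorization p + m'.factorization p = b.factorization p + m.factorization p := by
    have h2 := congrArg (fun n => n.factorization p) he
    simp only [Nat.factorization_mul ha.ne' hm'.ne', Nat.factorization_mul hk0 hb.ne',
      Nat.factorization_mul (mul_ne_zero hk0 hb.ne') hm.ne', Finsupp.add_apply] at h2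
    rw [Nat.factorization_eq_zero_of_not_dvd hk, zero_add] at h2
    exact h2
  constructor
  · rintro ⟨n, hn, h2⟩
    have : m = n := by exact_mod_cast hn
    subst this
    exact ⟨m', rfl, by omega⟩
  · rintro ⟨n, hn, h2⟩
    have : m' = n := by exact_mod_cast hn
    subst this
    exact ⟨m, rfl, by omega⟩

theorem realise {p : ℕ} [hp : Fact p.Prime] {O : ValuationSubring ℂ}
    (hpO : (p : ℂ) ∈ O.nonunits) {G : Type} [Group G] {B : Set (G → ℂ)} (hB : AdmB p O G B) :
    ∃ (W : Type) (_ : Group W) (B' : Set (W → ℂ)), IsModular W ∧ AdmB p O W B' ∧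
      (∀ D, IsDefectGroup p O B D → ∃ D', IsDefectGroup p O B' D' ∧ Nonempty (D' ≃* D)) ∧
      S p O B' = S p O B ∧ ∀ d, SDef p O d B' = SDef p O d B := by
  obtain ⟨W, i, B', h1, h2, h3, h4⟩ := Pool.Agent.H45.MG.awc_modular hpO hB
  exact ⟨W, i, B', h1, h2, h3, sum_eq h4, sumDef_eq h4⟩

/-- Let `p` be a prime. Here `(G, B)` is a finite group with `O_p(G) = 1` and a block `B` with
nontrivial defect groups (`AdmB p O G B`); `S(B)` is the sum of Q1 and `SDef d B` Dade's sum for the
characters of `p`-defect `d`.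
(1) For each `(G, B)` there is such a `(W, B')` with `W` a perfect quotient of the modular group
`PSL₂(ℤ)`, with isomorphic defect groups, `S(B') = S(B)` and `SDef d B' = SDef d B` for all `d`.
(2) `S(B) = 0` for all `(G, B)` if and only if `S(B) ≤ 0` for all blocks of the finite perfect quotients
of `PSL₂(ℤ)`.
(3) All sums `SDef d B` vanish for all `(G, B)` if and only if they vanish for the finite perfect
quotients of `PSL₂(ℤ)`.
(4) If `p` is odd: `S(B) = 0` for all `(G, B)` if and only if `S` is bounded above on the blocks of the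
finite perfect quotients of `PSL₂(ℤ)`.
(5) If `p` is odd: `S(B) = 0` for all `(G, B)` if and only if `S(B)` is even for all blocks of the finite
perfect quotients of `PSL₂(ℤ)`. -/
theorem result (p : ℕ) [Fact p.Prime] (O : ValuationSubring ℂ) (hpO : (p : ℂ) ∈ O.nonunits) :
    (∀ (G : Type) [Group G] (B : Set (G → ℂ)), AdmB p O G B →
      ∃ (W : Type) (_ : Group W) (B' : Set (W → ℂ)), IsModular W ∧ AdmB p O W B' ∧
        (∀ D, IsDefectGroup p O B D → ∃ D', IsDefectGroup p O B' D' ∧ Nonempty (D' ≃* D)) ∧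
        S p O B' = S p O B ∧ ∀ d, SDef p O d B' = SDef p O d B) ∧
    ((∀ (G : Type) [Group G] (B : Set (G → ℂ)), AdmB p O G B → S p O B = 0) ↔
      ∀ (W : Type) [Group W] (B : Set (W → ℂ)), AdmB p O W B → IsModular W → S p O B ≤ 0) ∧
    ((∀ (G : Type) [Group G] (B : Set (G → ℂ)), AdmB p O G B → ∀ d, SDef p O d B = 0) ↔
      ∀ (W : Type) [Group W] (B : Set (W → ℂ)), AdmB p O W B → IsModular W →
        ∀ d, SDef p O d B = 0) ∧
    (p ≠ 2 → ((∀ (G : Type) [Group G] (B : Set (G → ℂ)), AdmB p O G B → S p O B = 0) ↔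
      ∃ c : ℤ, ∀ (W : Type) [Group W] (B : Set (W → ℂ)), AdmB p O W B → IsModular W →
        S p O B ≤ c)) ∧
    (p ≠ 2 → ((∀ (G : Type) [Group G] (B : Set (G → ℂ)), AdmB p O G B → S p O B = 0) ↔
      ∀ (W : Type) [Group W] (B : Set (W → ℂ)), AdmB p O W B → IsModular W →
        Even (S p O B))) := by
  refine ⟨fun G _ B hB => realise hpO hB, ⟨fun h W _ B hB _ => (h W B hB).le, fun h G _ B hB => ?_⟩,
    ⟨fun h W _ B hB _ => h W B hB, fun h G _ B hB d => ?_⟩, fun hp2 => ⟨?_, ?_⟩,
    fun hp2 => ⟨fun h W _ B hB _ => by rw [h W B hB]; exact Even.zero, fun h G _ B hB => ?_⟩⟩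
  · obtain ⟨W, i, B', h1, h2, -, h5, -⟩ := realise hpO (hB.prod hB)
    have h3 := h W B' h2 h1
    rw [h5] at h3
    have := hB.fin
    have h4 : S p O (Pool.Agent.Q90.WR.bxS B B) = S p O B * S p O B :=
      Pool.Agent.K4H11.AW.blkAlt_prod hB.block hB.block
    rw [h4] at h3
    nlinarith [mul_self_nonneg (S p O B)]
  · obtain ⟨W, i, B', h1, h2, -, -, h5⟩ := realise hpO hB
    rw [← h5 d]
    exact h W B' h2 h1 d
  · exact fun h => ⟨0, fun W _ B hB _ => (h W B hB).le⟩
  · rintro ⟨c, h⟩ G _ B hB
    by_contra hne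
    obtain ⟨G', i', B', h1, -, h3⟩ := Pool.Agent.K4H11.AW.amplify (p := p) (O := O)
      (C := fun G i B => @AdmB p O G i B) hp2 hpO (fun G _ B h => h)
      (fun G _ B h => h.wr hp2 hpO) (fun G _ B h => h.prod h) G B hB hne c.toNat
    obtain ⟨W, i, B'', h4, h5, -, h6, -⟩ := realise hpO h1
    have h7 := h W B'' h5 h4
    rw [h6] at h7
    have h8 : (2 : ℤ) ^ 2 ^ c.toNat ≤ c := h3.trans h7
    have h9 : c.toNat < 2 ^ c.toNat := Nat.lt_two_pow_self
    have h10 : 2 ^ c.toNat < 2 ^ 2 ^ c.toNat := Nat.pow_lt_pow_right one_lt_two h9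
    have h11 : (c.toNat : ℤ) < 2 ^ 2 ^ c.toNat := by exact_mod_cast h9.trans h10
    have h12 := Int.self_le_toNat c
    omega
  · have := hB.fin
    refine (Pool.Agent.Q90.WR.ba_one hp2 hpO G B (hB.good hpO)).mpr fun j => ?_
    have h1 := Pool.Agent.Q90.WR.AdmB.wrN hp2 hpO j G B hB
    have := h1.fin
    obtain ⟨W, i, B', h2, h3, -, h4, -⟩ := realise hpO h1
    have h5 := h W B' h3 h2
    rw [h4, even_iff_two_dvd] at h5
    exact (Pool.Agent.Q90.WR.blkAlt_parity _).mpr h5

end Pool.Agent.Results.MP_6a3f1a_al.ModularGroup
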