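import Pool.Agent.H45.MG.Gen
import Pool.Agent.H9.RW.Grp

/-!
# The alternating sums of Knörr and Robinson are decided by the groups `C_q ≀ S_n`

`O` is a valuation subring of `ℂ` whose maximal ideal contains `p`; blocks, defect groups and block
induction are defined by central characters modulo the maximal ideal of `O`
(`Pool.Agent.H254R3.IN`, `Pool.Agent.Q90.WR.IndS`).

Let `D` be a finite group of order prime to `p` which is not perfect, for example the cyclic group of
order `q` for a prime `q ≠ p`, `χ` a nontrivial linear character of `D`, and `G` a subgroup of the finite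
group `H`. The linear character `f ↦ ∏ x ∈ G, χ (f x)` of the base group `D ^ H` of the regular wreath
product `D ≀ᵣ H` has the stabiliser `D ^ H ⋊ G` and extends to it. By the correspondence of Fong and
Reynolds (`Pool.Agent.H45.MG.awc_gen`, from the library) every block of `G` has the alternating sums of a
block of `D ≀ᵣ H`. Since every finite group is a subgroup of a symmetric group, the explicit sequence of
the groups `D ≀ᵣ S_n` decides the conjecture.
-/

set_option autoImplicit false

noncomputable section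

namespace Pool.Agent.Results.MP_6a3f1a_al.RegularWreathProducts

open Pool.Agent.Y63.KR (alternatingSum)
open Pool.Agent.Q90.WR (IndS AdmB)
open Pool.Agent.H254R3.IN (IsBlock IsDefectGroup)

/-- `k(B_σ)` for `G_σ = H`: the number of the irreducible characters `θ` of `H` with `bl(θ)^G = B`. -/
def k (O : ValuationSubring ℂ) {G : Type} [Group G] (B : Set (G → ℂ)) (H : Subgroup G) : ℕ :=
  Nat.card {θ : H → ℂ // θ ∈ IndS O B (Subtype.val : H → G)}

/-- `k^d(B_σ)`: the number of those of `p`-defect `d`. -/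
def kDef (p : ℕ) (O : ValuationSubring ℂ) (d : ℕ) {G : Type} [Group G] (B : Set (G → ℂ))
    (H : Subgroup G) : ℕ :=
  Nat.card {θ : H → ℂ // θ ∈ IndS O B (Subtype.val : H → G) ∧
    ∃ n : ℕ, θ 1 = (n : ℂ) ∧ n.factorization p + d = (Nat.card H).factorization p}

/-- The sum of Q1 for `O_p(G) = 1`: `∑_σ (-1)^|σ| k(B_σ)` over representatives `σ` of the `G`-classes of
chains of nontrivial `p`-subgroups of `G`, the empty chain included. -/
def S (p : ℕ) (O : ValuationSubring ℂ) {G : Type} [Group G] (B : Set (G → ℂ)) : ℤ :=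
  alternatingSum p G (fun H => (k O B H : ℤ))

/-- Dade's sum `∑_σ (-1)^|σ| k^d(B_σ)`. -/
def SDef (p : ℕ) (O : ValuationSubring ℂ) (d : ℕ) {G : Type} [Group G] (B : Set (G → ℂ)) : ℤ :=
  alternatingSum p G (fun H => (kDef p O d B H : ℤ))

/-- `O_p(W) = 1`, the defect groups of the blocks `B'` of `W` and `B` of `G` are isomorphic and not
trivial, and all the sums `S`, `SDef` of `B'` and `B` agree. -/
structure Realises (p : ℕ) (O : ValuationSubring ℂ) {G W : Type} [Group G] [Group W]
    (B' : Set (W → ℂ)) (B : Set (G → ℂ)) : Prop where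
  adm : AdmB p O W B'
  defect : ∀ D, IsDefectGroup p O B D → ∃ D', IsDefectGroup p O B' D' ∧ Nonempty (D' ≃* D)
  sum : S p O B' = S p O B
  sumDef : ∀ d, SDef p O d B' = SDef p O d B

/-- Every finite group is isomorphic to a subgroup of a member of the family `H`. -/
def Universal {κ : Type} (H : κ → Type) [∀ i, Group (H i)] : Prop :=
  ∀ (G : Type) [Group G] [Finite G], ∃ i, ∃ ι : G →* H i, Function.Injective ι

theorem sum_eq {p : ℕ} {O : ValuationSubring ℂ} {G W : Type} [Group G] [Group W]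
    {B' : Set (W → ℂ)} {B : Set (G → ℂ)}
    (h : ∀ Q : ℂ → ℕ → Prop, Pool.Agent.K4H11.FR.QOK p Q →
      alternatingSum p W (fun K => (Pool.Agent.K4H11.FR.cntQ O Q B' K : ℤ)) =
        alternatingSum p G (fun K => (Pool.Agent.K4H11.FR.cntQ O Q B K : ℤ))) :
    S p O B' = S p O B := by
  have h1 := h (fun _ _ => True) (fun _ _ _ _ _ _ _ _ _ _ _ => Iff.rfl)
  have e : ∀ {J : Type} [Group J] (C : Set (J → ℂ)) (K : Subgroup J),
      Pool.Agent.K4H11.FR.cntQ O (fun _ _ => True) C K = k O C K := fun C K =>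
    Nat.card_congr (Equiv.subtypeEquivRight fun θ => iff_of_eq (and_true _))
  simp only [e] at h1
  exact h1

theorem sumDef_eq {p : ℕ} [Fact p.Prime] {O : ValuationSubring ℂ} {G W : Type} [Group G]
    [Group W] {B' : Set (W → ℂ)} {B : Set (G → ℂ)}
    (h : ∀ Q : ℂ → ℕ → Prop, Pool.Agent.K4H11.FR.QOK p Q →
      alternatingSum p W (fun K => (Pool.Agent.K4H11.FR.cntQ O Q B' K : ℤ)) =
        alternatingSum p G (fun K => (Pool.Agent.K4H11.FR.cntQ O Q B K : ℤ))) (d : ℕ) :
    SDef p O d B' = SDef p O d B := by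
  refine h (fun z a => ∃ n : ℕ, z = (n : ℂ) ∧ n.factorization p + d = a.factorization p) ?_
  intro m m' a b k hm hm' ha hb hk he
  have hk0 : k ≠ 0 := by
    rintro rfl
    exact hk (dvd_zero p)
  have h1 : a.factorization p + m'.factorization p = b.factorization p + m.factorization p := by
    have h2 := congrArg (fun n => n.factorization p) he
    simp only [Nat.factorization_mul ha.ne' hm'.ne', Nat.factorization_mul hk0 hb.ne',
      Nat.factorization_mul (mul_ne_zero hk0 hb.ne') hm.ne', Finsupp.add_apply] at h2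
    rw [Nat.factorization_eq_zero_of_not_dvd hk, zero_add] at h2
    exact h2
  constructor
  · rintro ⟨n, hn, h2⟩
    have : m = n := by exact_mod_cast hn
    subst this
    exact ⟨m', rfl, by omega⟩
  · rintro ⟨n, hn, h2⟩
    have : m' = n := by exact_mod_cast hn
    subst this
    exact ⟨m, rfl, by omega⟩

/-- All blocks of all subgroups of `H` are realised in the one group `D ≀ᵣ H`. -/
theorem realise {p : ℕ} [hp : Fact p.Prime] {O : ValuationSubring ℂ}
    (hpO : (p : ℂ) ∈ O.nonunits) {D : Type} [Group D] [Finite D] (hD : ¬ p ∣ Nat.card D)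
    (hD' : commutator D ≠ ⊤) {G H : Type} [Group G] [Group H] [Finite H] {ι : G →* H}
    (hι : Function.Injective ι) {B : Set (G → ℂ)} (hB : AdmB p O G B) :
    ∃ B' : Set ((D ≀ᵣ H) → ℂ), Realises p O B' B := by
  have := hB.fin
  letI := Fintype.ofFinite G
  obtain ⟨χ, d, hd⟩ := Pool.Agent.H9.RW.exists_char D hD'
  obtain ⟨B', h1, h2, h3⟩ := Pool.Agent.H45.MG.awc_gen (Pool.Agent.H9.RW.pr_sec hι)
    (Subgroup.subtype_injective (Pool.Agent.H9.RW.T D ι)) (Pool.Agent.H9.RW.normal hι)
    (Pool.Agent.H9.RW.card_ker hι hD) (Pool.Agent.H9.RW.moves hι χ hd) hpO hB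
  exact ⟨B', h1, h2, sum_eq h3, sumDef_eq h3⟩

/-- The symmetric groups whose degrees belong to an infinite set. -/
theorem universal_perm {N : Set ℕ} (hN : N.Infinite) :
    Universal fun n : N => Equiv.Perm (Fin n) := by
  intro G _ _
  obtain ⟨n, hn, h⟩ := hN.exists_gt (Nat.card G)
  obtain ⟨ι, hι⟩ := Pool.Agent.H9.RW.exists_perm G n h.le
  exact ⟨⟨n, hn⟩, ι, hι⟩

/-- Let `p` be a prime and `D` a finite group of order prime to `p` which is not perfect. Here `(G, B)` is
a finite group with `O_p(G) = 1` and a block `B` with nontrivial defect groups (`AdmB p O G B`); `S(B)` is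
the sum of Q1 and `SDef d B` Dade's sum for the characters of `p`-defect `d`.
(1) If `G` is a subgroup of a finite group `H`, then there is a block `B'` of the regular wreath product
`D ≀ᵣ H` with `S(B') = S(B)`, `SDef d B' = SDef d B` for all `d` and isomorphic defect groups.
(2) The family of the symmetric groups of degrees in an infinite set `N` is universal. Let `(H i)` be any
universal family of finite groups (every finite group is a subgroup of some `H i`).
(3) `S(B) = 0` for all `(G, B)` if and only if `S(B) ≤ 0` for all blocks of the groups `D ≀ᵣ H i`.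
(4) All sums `SDef d B` vanish for all `(G, B)` if and only if they vanish for the groups `D ≀ᵣ H i`.
(5) If `p` is odd: `S(B) = 0` for all `(G, B)` if and only if `S` is bounded above on the blocks of the
groups `D ≀ᵣ H i`.
(6) If `p` is odd: `S(B) = 0` for all `(G, B)` if and only if `S(B)` is even for all blocks of the groups
`D ≀ᵣ H i`. -/
theorem result (p : ℕ) [Fact p.Prime] (O : ValuationSubring ℂ) (hpO : (p : ℂ) ∈ O.nonunits)
    (D : Type) [Group D] [Finite D] (hD : ¬ p ∣ Nat.card D) (hD' : commutator D ≠ ⊤) :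
    (∀ (G H : Type) [Group G] [Group H] [Finite H] (ι : G →* H), Function.Injective ι →
      ∀ B : Set (G → ℂ), AdmB p O G B → ∃ B' : Set ((D ≀ᵣ H) → ℂ), Realises p O B' B) ∧
    (∀ N : Set ℕ, N.Infinite → Universal fun n : N => Equiv.Perm (Fin n)) ∧
    ∀ (κ : Type) (H : κ → Type) [∀ i, Group (H i)] [∀ i, Finite (H i)], Universal H →
      ((∀ (G : Type) [Group G] (B : Set (G → ℂ)), AdmB p O G B → S p O B = 0) ↔
        ∀ (i : κ) (B : Set ((D ≀ᵣ H i) → ℂ)), AdmB p O (D ≀ᵣ H i) B → S p O B ≤ 0) ∧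
      ((∀ (G : Type) [Group G] (B : Set (G → ℂ)), AdmB p O G B → ∀ d, SDef p O d B = 0) ↔
        ∀ (i : κ) (B : Set ((D ≀ᵣ H i) → ℂ)), AdmB p O (D ≀ᵣ H i) B → ∀ d, SDef p O d B = 0) ∧
      (p ≠ 2 → ((∀ (G : Type) [Group G] (B : Set (G → ℂ)), AdmB p O G B → S p O B = 0) ↔
        ∃ c : ℤ, ∀ (i : κ) (B : Set ((D ≀ᵣ H i) → ℂ)), AdmB p O (D ≀ᵣ H i) B → S p O B ≤ c)) ∧
      (p ≠ 2 → ((∀ (G : Type) [Group G] (B : Set (G → ℂ)), AdmB p O G B → S p O B = 0) ↔
        ∀ (i : κ) (B : Set ((D ≀ᵣ H i) → ℂ)), AdmB p O (D ≀ᵣ H i) B → Even (S p O B))) := by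
  refine ⟨fun G H _ _ _ ι hι B hB => realise hpO hD hD' hι hB, fun N hN => universal_perm hN,
    fun κ H _ _ hH => ?_⟩
  have hr : ∀ (G : Type) [Group G] (B : Set (G → ℂ)), AdmB p O G B →
      ∃ (i : κ) (B' : Set ((D ≀ᵣ H i) → ℂ)), Realises p O B' B := by
    intro G _ B hB
    have := hB.fin
    obtain ⟨i, ι, hι⟩ := hH G
    obtain ⟨B', h⟩ := realise hpO hD hD' hι hB
    exact ⟨i, B', h⟩
  refine ⟨⟨fun h i B hB => (h _ B hB).le, fun h G _ B hB => ?_⟩,
    ⟨fun h i B hB => h _ B hB, fun h G _ B hB d => ?_⟩, fun hp2 => ⟨?_, ?_⟩,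
    fun hp2 => ⟨fun h i B hB => by rw [h _ B hB]; exact Even.zero, fun h G _ B hB => ?_⟩⟩
  · obtain ⟨i, B', h1⟩ := hr _ _ (hB.prod hB)
    have h3 := h i B' h1.adm
    rw [h1.sum] at h3
    have := hB.fin
    have h4 : S p O (Pool.Agent.Q90.WR.bxS B B) = S p O B * S p O B :=
      Pool.Agent.K4H11.AW.blkAlt_prod hB.block hB.block
    rw [h4] at h3
    nlinarith [mul_self_nonneg (S p O B)]
  · obtain ⟨i, B', h1⟩ := hr _ _ hB
    rw [← h1.sumDef d]
    exact h i B' h1.adm d
  · exact fun h => ⟨0, fun i B hB => (h _ B hB).le⟩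
  · rintro ⟨c, h⟩ G _ B hB
    by_contra hne
    obtain ⟨G', i', B', h1, -, h3⟩ := Pool.Agent.K4H11.AW.amplify (p := p) (O := O)
      (C := fun G i B => @AdmB p O G i B) hp2 hpO (fun G _ B h => h)
      (fun G _ B h => h.wr hp2 hpO) (fun G _ B h => h.prod h) G B hB hne c.toNat
    obtain ⟨i, B'', h4⟩ := hr _ _ h1
    have h7 := h i B'' h4.adm
    rw [h4.sum] at h7
    have h8 : (2 : ℤ) ^ 2 ^ c.toNat ≤ c := h3.trans h7
    have h9 : c.toNat < 2 ^ c.toNat := Nat.lt_two_pow_self
    have h10 : 2 ^ c.toNat < 2 ^ 2 ^ c.toNat := Nat.pow_lt_pow_right one_lt_two h9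
    have h11 : (c.toNat : ℤ) < 2 ^ 2 ^ c.toNat := by exact_mod_cast h9.trans h10
    have h12 := Int.self_le_toNat c
    omega
  · have := hB.fin
    refine (Pool.Agent.Q90.WR.ba_one hp2 hpO G B (hB.good hpO)).mpr fun j => ?_
    have h1 := Pool.Agent.Q90.WR.AdmB.wrN hp2 hpO j G B hB
    have := h1.fin
    obtain ⟨i, B', h2⟩ := hr _ _ h1
    have h5 := h i B' h2.adm
    rw [h2.sum, even_iff_two_dvd] at h5
    exact (Pool.Agent.Q90.WR.blkAlt_parity _).mpr h5

end Pool.Agent.Results.MP_6a3f1a_al.RegularWreathProducts
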